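import Pool.Agent.Helper114_NB.Main
import Pool.Agent.Helper114_NB.JNF

/-!
# Nonbacktracking matrices of graphs without leaves have arbitrarily large Jordan blocks
-/

set_option autoImplicit false

namespace Pool.Agent.Results.MP_b5bb8b_co.FTendsToInfinity

open Matrix Filter

/-- The nonbacktracking matrix over `ℂ`; rows and columns are indexed by the directed edges. -/
noncomputable def nbMatrix {V : Type} [DecidableEq V] (G : SimpleGraph V) :
    Matrix G.Dart G.Dart ℂ :=
  Matrix.of fun a b => if a.snd = b.fst ∧ a.fst ≠ b.snd then 1 else 0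

/-- The Jordan block with `s` rows and eigenvalue `μ`. -/
def jordanBlock (s : ℕ) (μ : ℂ) : Matrix (Fin s) (Fin s) ℂ :=
  Matrix.of fun a b => if a = b then μ else if (a : ℕ) + 1 = (b : ℕ) then 1 else 0

/-- `B` has the Jordan normal form with the `r` blocks `jordanBlock (s i) (μ i)`: these blocks are
not empty and `B` is similar to the block diagonal matrix with these blocks. -/
def IsJordanForm {ι : Type} [Fintype ι] [DecidableEq ι] (B : Matrix ι ι ℂ) (r : ℕ)
    (s : Fin r → ℕ) (μ : Fin r → ℂ) : Prop :=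
  (∀ i, 1 ≤ s i) ∧
    ∃ (P : Matrix ι (Σ i, Fin (s i)) ℂ) (Q : Matrix (Σ i, Fin (s i)) ι ℂ),
      P * Q = 1 ∧ Q * P = 1 ∧
        Q * B * P = Matrix.blockDiagonal' fun i => jordanBlock (s i) (μ i)

/-- The numbers of rows of the Jordan blocks of the nonbacktracking matrices of the graphs on `n`
vertices with at least one edge and without vertices of degree one. -/
def blockSizes (n : ℕ) : Set ℕ :=
  {t | ∃ (G : SimpleGraph (Fin n)) (_ : DecidableRel G.Adj),
    (∀ v, G.degree v ≠ 1) ∧ (∃ u v, G.Adj u v) ∧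
      ∃ (r : ℕ) (s : Fin r → ℕ) (μ : Fin r → ℂ), IsJordanForm (nbMatrix G) r s μ ∧ ∃ i, s i = t}

/-- The largest size of a Jordan block. -/
noncomputable def f (n : ℕ) : ℕ := sSup (blockSizes n)

theorem bddAbove (n : ℕ) : BddAbove (blockSizes n) := by
  classical
  refine ⟨n * n, ?_⟩
  rintro t ⟨G, hdec, -, -, r, s, μ, hJ, i, rfl⟩
  have h1 : s i ≤ Fintype.card G.Dart := Helper114NB.IsJordanForm.le_card hJ i
  have h2 : Fintype.card G.Dart ≤ Fintype.card (Fin n × Fin n) :=
    Fintype.card_le_of_injective _ SimpleGraph.Dart.toProd_injective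
  rw [Fintype.card_prod, Fintype.card_fin] at h2
  exact h1.trans h2

/-- `f n` tends to infinity as `n` tends to infinity. -/
theorem result : Tendsto f atTop atTop := by
  rw [tendsto_atTop_atTop]
  intro N
  obtain ⟨n₀, h⟩ := Helper114NB.main (N + 1) (Nat.le_add_left 1 N)
  refine ⟨n₀, fun n hn => ?_⟩
  obtain ⟨G, hdec, hdeg, hedge, x, h1, h2⟩ := h n hn
  obtain ⟨r, s, μ, hJ⟩ := Helper114NB.exists_jordanForm (nbMatrix G)
  obtain ⟨i, hi⟩ := Helper114NB.exists_block h1 h2 hJ
  have h3 : s i ∈ blockSizes n := ⟨G, hdec, hdeg, hedge, r, s, μ, hJ, i, rfl⟩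
  exact (Nat.le_of_succ_le hi).trans (le_csSup (bddAbove n) h3)

end Pool.Agent.Results.MP_b5bb8b_co.FTendsToInfinity
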