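import Pool.Agent.Helper114_D2.Lower
import Pool.Agent.Helper114_D2.Upper

/-!
# The normalised minimum size of diameter-two graphs with maximum degree at most `cn` does not
converge for `c = 3/7`
-/

set_option autoImplicit false

open Filter

namespace Pool.Agent.Results.MP_5980c2_co.NoLimitAtThreeSevenths

/-- `minSize d n k` is the minimum number of edges of a graph of order `n` whose diameter is at
most `d` and whose maximum degree is at most `k`. -/
noncomputable def minSize (d n : ℕ) (k : ℝ) : ℕ :=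
  sInf {s : ℕ | ∃ G : SimpleGraph (Fin n), G.ediam ≤ (d : ℕ∞) ∧
    (∀ v, ((G.neighborSet v).ncard : ℝ) ≤ k) ∧ G.edgeSet.ncard = s}

open scoped Classical in
theorem ncard_nb {V : Type} [Fintype V] (G : SimpleGraph V) (v : V) :
    (G.neighborSet v).ncard = (G.neighborFinset v).card := by
  rw [Set.ncard_eq_toFinset_card', SimpleGraph.neighborFinset]

open scoped Classical in
theorem ncard_edge {V : Type} [Fintype V] (G : SimpleGraph V) :
    G.edgeSet.ncard = G.edgeFinset.card := by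
  rw [Set.ncard_eq_toFinset_card', SimpleGraph.edgeFinset]

theorem feasible (n : ℕ) (hn : 70 ≤ n) : ∃ G : SimpleGraph (Fin n), G.ediam ≤ 2 ∧
    ∀ v, ((G.neighborSet v).ncard : ℝ) ≤ (3 / 7 : ℝ) * n := by
  classical
  refine ⟨Helper114.D2.bg n, (Helper114.D2.ediam_le_two_iff _).mpr
    (fun u v huv hadj => Helper114.D2.bg_diam n (by omega) u v huv hadj), fun v => ?_⟩
  have h1 := Helper114.D2.bg_deg n v
  rw [← ncard_nb] at h1
  have h2 : 7 * (Set.ncard ((Helper114.D2.bg n).neighborSet v)) ≤ 3 * n := by omega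
  have h3 : (7 : ℝ) * (Set.ncard ((Helper114.D2.bg n).neighborSet v) : ℝ) ≤ 3 * n := by
    exact_mod_cast h2
  linarith

theorem upper (m : ℕ) (hm : 2 ≤ m) :
    minSize 2 (7 * m) ((3 / 7 : ℝ) * ((7 * m : ℕ) : ℝ)) ≤ 21 * m := by
  classical
  have h1 := Helper114.D2.fg_edges m hm
  rw [← ncard_edge] at h1
  refine le_trans (Nat.sInf_le ⟨Helper114.D2.fg m, ?_, fun v => ?_, rfl⟩) h1
  · exact (Helper114.D2.ediam_le_two_iff _).mpr
      (fun u v huv hadj => Helper114.D2.fg_diam m hm u v huv hadj)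
  · have h2 := Helper114.D2.fg_deg m hm v
    rw [← ncard_nb] at h2
    have h3 : (Set.ncard ((Helper114.D2.fg m).neighborSet v) : ℝ) ≤ 3 * m := by exact_mod_cast h2
    push_cast
    linarith

theorem lower (m : ℕ) (hm : 1000000 ≤ m) :
    12001 * (7 * m + 2) < 4000 * minSize 2 (7 * m + 2) ((3 / 7 : ℝ) * ((7 * m + 2 : ℕ) : ℝ)) := by
  classical
  obtain ⟨G0, h0, h0'⟩ := feasible (7 * m + 2) (by omega)
  obtain ⟨G, hG, hdeg, hs⟩ := Nat.sInf_mem (s := {s : ℕ | ∃ G : SimpleGraph (Fin (7 * m + 2)),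
    G.ediam ≤ ((2 : ℕ) : ℕ∞) ∧ (∀ v, ((G.neighborSet v).ncard : ℝ) ≤
      (3 / 7 : ℝ) * ((7 * m + 2 : ℕ) : ℝ)) ∧ G.edgeSet.ncard = s})
    ⟨_, G0, h0, h0', rfl⟩
  have h1 := Helper114.D2.lower G m hm (by rw [Fintype.card_fin]) (fun v => ?_)
    ((Helper114.D2.ediam_le_two_iff G).mp hG)
  · rw [← ncard_edge, hs] at h1
    exact h1
  · rw [← ncard_nb]
    have h2 := hdeg v
    push_cast at h2
    have h3 : ((G.neighborSet v).ncard : ℝ) < ((3 * m + 1 : ℕ) : ℝ) := by
      push_cast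
      linarith
    have h4 : (G.neighborSet v).ncard < 3 * m + 1 := by exact_mod_cast h3
    omega

/-- For `c = 3/7` graphs of order `n`, diameter at most `2` and maximum degree at most `cn` exist
for all `n ≥ 70`, but the minimum size of such a graph divided by `n` does not converge. -/
theorem result :
    (∀ n : ℕ, 70 ≤ n → ∃ G : SimpleGraph (Fin n), G.ediam ≤ 2 ∧
      ∀ v, ((G.neighborSet v).ncard : ℝ) ≤ (3 / 7 : ℝ) * n) ∧
    ¬ ∃ L : ℝ, Tendsto (fun n : ℕ => (minSize 2 n ((3 / 7 : ℝ) * n) : ℝ) / n) atTop (nhds L) := by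
  refine ⟨feasible, ?_⟩
  rintro ⟨L, hL⟩
  have h1 : Tendsto (fun m : ℕ => 7 * m) atTop atTop :=
    tendsto_atTop_mono (fun m => by simp only [id]; omega) tendsto_id
  have h2 : Tendsto (fun m : ℕ => 7 * m + 2) atTop atTop :=
    tendsto_atTop_mono (fun m => by simp only [id]; omega) tendsto_id
  have h3 : L ≤ 3 := by
    refine le_of_tendsto (hL.comp h1) ?_
    filter_upwards [eventually_ge_atTop 2] with m hm
    have h4 := upper m hm
    have h5 : ((minSize 2 (7 * m) ((3 / 7 : ℝ) * ((7 * m : ℕ) : ℝ)) : ℕ) : ℝ) ≤ 21 * m := by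
      exact_mod_cast h4
    simp only [Function.comp]
    rw [div_le_iff₀ (by exact_mod_cast (by omega : 0 < 7 * m))]
    push_cast at h5 ⊢
    linarith
  have h4 : (12001 / 4000 : ℝ) ≤ L := by
    refine ge_of_tendsto (hL.comp h2) ?_
    filter_upwards [eventually_ge_atTop 1000000] with m hm
    have h4 := lower m hm
    have h5 : (12001 : ℝ) * (7 * m + 2) <
        4000 * ((minSize 2 (7 * m + 2) ((3 / 7 : ℝ) * ((7 * m + 2 : ℕ) : ℝ)) : ℕ) : ℝ) := by
      exact_mod_cast h4
    simp only [Function.comp]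
    rw [le_div_iff₀ (by exact_mod_cast (by omega : 0 < 7 * m + 2))]
    push_cast at h5 ⊢
    linarith
  linarith

end Pool.Agent.Results.MP_5980c2_co.NoLimitAtThreeSevenths
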