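import Pool.Agent.Helper114_Nim.Exist
import Pool.Agent.Helper114_Nim.Main

/-!
# The nim multiplication table is not 2-regular
-/

set_option autoImplicit false

namespace Pool.Agent.Results.MP_68925f_co.TableNotTwoRegular

open Pool.Agent.Helper114.Nim

/-- Nim multiplication exists, and its two-dimensional table is not 2-regular. -/
theorem result : (∃ f : ℕ → ℕ → ℕ, IsNimMul f) ∧
    ∀ f : ℕ → ℕ → ℕ, IsNimMul f → ¬ TwoRegularArr (fun m n => (f m n : ℤ)) :=
  ⟨⟨nimMul, isNimMul_nimMul⟩, fun _ h ht => not_regular_seq h (regular_diag ht)⟩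

end Pool.Agent.Results.MP_68925f_co.TableNotTwoRegular
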